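import Pool.Agent.helper67.GV.Spec

set_option autoImplicit false

open Finset Filter Topology

namespace Pool.Agent.helper67.GV

open Pool.Agent.helper21.GR

/-- the substitution of colourings -/
def LEX_e {K V : Type} [DecidableEq V] (d : V → V → K) (m : V → ℕ)
    (c : ∀ v, Fin (m v) → Fin (m v) → K) (x y : Σ v : V, Fin (m v)) : K :=
  if h : x.1 = y.1 then c y.1 (h ▸ x.2) y.2 else d x.1 y.1

lemma LEX_same {K V : Type} [DecidableEq V] (d : V → V → K) (m : V → ℕ)
    (c : ∀ v, Fin (m v) → Fin (m v) → K) (v : V) (p q : Fin (m v)) :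
    LEX_e d m c ⟨v, p⟩ ⟨v, q⟩ = c v p q := by
  unfold LEX_e
  simp

lemma LEX_diff {K V : Type} [DecidableEq V] (d : V → V → K) (m : V → ℕ)
    (c : ∀ v, Fin (m v) → Fin (m v) → K) (u v : V) (p : Fin (m u)) (q : Fin (m v)) (h : u ≠ v) :
    LEX_e d m c ⟨u, p⟩ ⟨v, q⟩ = d u v := by
  unfold LEX_e
  simp [h]

lemma LEX_gal {K V : Type} [DecidableEq V] (d : V → V → K) (hd : Gal d) (m : V → ℕ)
    (c : ∀ v, Fin (m v) → Fin (m v) → K) (hc : ∀ v, Gal (c v)) : Gal (LEX_e d m c) := by
  constructor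
  · rintro ⟨u, p⟩ ⟨v, q⟩
    by_cases h : u = v
    · subst h
      rw [LEX_same, LEX_same, (hc u).symm]
    · rw [LEX_diff _ _ _ _ _ _ _ h, LEX_diff _ _ _ _ _ _ _ (Ne.symm h), hd.symm]
  · rintro ⟨u, p⟩ ⟨v, q⟩ ⟨z, r⟩ h1 h2 h3
    by_cases huv : u = v
    · subst huv
      by_cases huz : u = z
      · subst huz
        rw [LEX_same, LEX_same, LEX_same]
        exact (hc u).gal p q r (fun h => h1 (by rw [h])) (fun h => h2 (by rw [h]))
          (fun h => h3 (by rw [h]))
      · right; left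
        rw [LEX_diff _ _ _ _ _ _ _ huz, LEX_diff _ _ _ _ _ _ _ huz]
    · by_cases hvz : v = z
      · subst hvz
        right; right
        rw [LEX_diff _ _ _ _ _ _ _ huv, LEX_diff _ _ _ _ _ _ _ huv]
      · by_cases huz : u = z
        · subst huz
          left
          rw [LEX_diff _ _ _ _ _ _ _ huv, LEX_diff _ _ _ _ _ _ _ hvz, hd.symm]
        · rw [LEX_diff _ _ _ _ _ _ _ huv, LEX_diff _ _ _ _ _ _ _ hvz, LEX_diff _ _ _ _ _ _ _ huz]
          exact hd.gal u v z huv hvz huz

lemma LEX_bd {K V : Type} [DecidableEq V] (d : V → V → K) (m : V → ℕ)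
    (c : ∀ v, Fin (m v) → Fin (m v) → K) (S : Finset V) (w : V → ℕ) (l : K) (A : ℕ)
    (hB : Bd (fun u v => d u v = l) S w A)
    (hc : ∀ v, Bd (fun p q => c v p q = l) (univ : Finset (Fin (m v))) (fun _ => 1) (w v)) :
    Bd (fun x y => LEX_e d m c x y = l) (S.sigma fun _ => univ) (fun _ => 1) A := by
  classical
  intro Q hQS hQ
  have h1 : ∑ x ∈ Q, 1 = ∑ v ∈ Q.image Sigma.fst, (Q.filter fun x => x.1 = v).card := by
    rw [← Finset.card_eq_sum_ones]
    exact Finset.card_eq_sum_card_image Sigma.fst Q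
  have h2 : ∀ v : V, (Q.filter fun x => x.1 = v).card ≤ w v := by
    intro v
    have h3 : (Q.filter fun x => x.1 = v) =
        ((univ : Finset (Fin (m v))).filter fun p => (⟨v, p⟩ : Σ v : V, Fin (m v)) ∈ Q).map
          (Function.Embedding.sigmaMk v) := by
      ext ⟨u, p⟩
      simp only [Finset.mem_filter, Finset.mem_map, Finset.mem_univ, true_and,
        Function.Embedding.sigmaMk_apply]
      constructor
      · rintro ⟨ha, hb⟩
        subst hb
        exact ⟨p, ha, rfl⟩
      · rintro ⟨q, ha, hb⟩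
        cases hb
        exact ⟨ha, rfl⟩
    rw [h3, Finset.card_map]
    have h4 := hc v ((univ : Finset (Fin (m v))).filter fun p => (⟨v, p⟩ : Σ v : V, Fin (m v)) ∈ Q)
      (Finset.filter_subset _ _) (by
        intro p hp q hq hpq
        rw [Finset.mem_filter] at hp hq
        have h5 := hQ _ hp.2 _ hq.2 (by
          intro h
          apply hpq
          simpa using h)
        dsimp only at h5
        rwa [LEX_same] at h5)
    rwa [← Finset.card_eq_sum_ones] at h4
  rw [h1]
  refine (Finset.sum_le_sum fun v _ => h2 v).trans ?_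
  apply hB
  · intro v hv
    rw [Finset.mem_image] at hv
    obtain ⟨x, hx, rfl⟩ := hv
    exact (Finset.mem_sigma.1 (hQS hx)).1
  · intro u hu v hv huv
    rw [Finset.mem_image] at hu hv
    obtain ⟨⟨u', p⟩, hx, rfl⟩ := hu
    obtain ⟨⟨v', q⟩, hy, rfl⟩ := hv
    have h5 := hQ _ hx _ hy (by
      intro h
      apply huv
      rw [h])
    dsimp only at h5 huv
    rwa [LEX_diff _ _ _ _ _ _ _ huv] at h5

theorem LEX (hCRD : CRD_stmt) : LEX_stmt := by
  intro K _ V _ d hd S w cap hB
  have hc : ∀ v, Rz (w v) (Fc (w v)) := fun v => (hCRD K (w v)).2.1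
  unfold Rz at hc
  choose c hcG hcB using hc
  have h := (hCRD K cap).1 (Σ v : V, Fin (Fc (w v))) (LEX_e d (fun v => Fc (w v)) c)
    (S.sigma fun _ => univ) (LEX_gal d hd _ c hcG)
    (fun l => LEX_bd d _ c S (fun v => w v l) l (cap l) (hB l) (fun v => hcB v l))
  rw [Finset.card_sigma] at h
  simpa using h

end Pool.Agent.helper67.GV
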